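import Pool.Agent.H844R2.Conn

/-!
# The `C^0` flux conjecture fails for open manifolds

We exhibit a connected open subset `M` of `ℝ⁴` with a symplectic form `Ω` for which
`Ham_c(M, Ω)` is not `C^0`-closed in `Symp_{c,0}(M, Ω)`, even for sequences with common compact
support.  `M` contains three round spheres of areas `4π`, `8π` and `4π(2+√2)` with
trivial normal bundle and one puncture; the difference of the areas of two of the spheres is the
flux of a loop of compactly supported symplectomorphisms of `M`, so that the flux group is dense in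
a line of `H¹_c(M; ℝ)`, while it is always countable.
-/

open Set Filter Topology
open scoped ContDiff

namespace Pool.Agent.Results.MP_e3d95b_gt.DenseFlux

open Pool.Agent.H844R2

/-- There is a connected symplectic manifold `(M, Ω)` without boundary (an open subset of `ℝ⁴`
with a symplectic form), a compact `K ⊆ M`, a sequence `φ k ∈ Ham_c(M, Ω)` supported in `K`, and
`ψ ∈ Symp_{c,0}(M, Ω)` which is not in `Ham_c(M, Ω)` although `φ k → ψ` uniformly. -/
theorem result : ∃ (M : Set (ℝ × ℝ × ℝ × ℝ))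
    (Ω : ℝ × ℝ × ℝ × ℝ → (ℝ × ℝ × ℝ × ℝ) →L[ℝ] (ℝ × ℝ × ℝ × ℝ) →L[ℝ] ℝ),
    SymplecticOn M Ω ∧ IsConnected M ∧
    ∃ K ⊆ M, IsCompact K ∧ ∃ (φ : ℕ → ℝ × ℝ × ℝ × ℝ → ℝ × ℝ × ℝ × ℝ)
      (ψ : ℝ × ℝ × ℝ × ℝ → ℝ × ℝ × ℝ × ℝ),
      (∀ k, φ k ∈ HamC M Ω) ∧ (∀ k, ∀ x ∈ M, x ∉ K → φ k x = x) ∧
      ψ ∈ SympC0 M Ω ∧ TendstoUniformlyOn φ ψ atTop M ∧ ψ ∉ HamC M Ω := by
  refine ⟨MX, OO, symplectic_MX, connected_MX, Kc, Kc_sub, compact_Kc, ?_⟩
  -- a flux value which is not realised
  obtain ⟨s, hs⟩ : ∃ s : ℝ, s ∉ {s : ℝ | TE 2 Gb s ∈ HamC MX OO} := by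
    by_contra hcon
    push Not at hcon
    have : (univ : Set ℝ).Countable := countable_ham.mono fun s _ => hcon s
    exact Cardinal.not_countable_real this
  -- approximations by realised flux values
  have hcl : s ∈ closure (goodGroup : Set ℝ) := dense_good s
  obtain ⟨u, hu, hlim⟩ := mem_closure_iff_seq_limit.1 hcl
  exact ⟨fun k => TE 2 Gb (u k), TE 2 Gb s, fun k => good_mem_HamC (hu k),
    fun k x hx hK => TE_off_Kc hx hK, TE_mem_SympC0 s, TE_tendsto hlim, hs⟩

end Pool.Agent.Results.MP_e3d95b_gt.DenseFlux
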